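import Pool.Agent.H53.MW.Targets

/-!
# Rows CHN and PLM of mwk_modules
-/

set_option autoImplicit false

open Finset
open Pool.Agent.H53.MC (Clause Falsified SatBy Line Circuit U Viol toC scope Ins cnt H1 Covers InR
  Bad cf)
open Pool.Agent.H15.FLX (Scopes Signs clause cnf Few en idx FG BR)
open Pool.Agent.H97.SHL (DT bl)
open Pool.Agent.H53.MW

namespace Pool.Agent.H36.MW

theorem pf_CHN : T_CHN := by
  intro n 𝒞 h𝒞
  have hle : ∀ B : Finset (Fin n → Bool), B.card ≤ 2 ^ n := by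
    intro B
    have h1 := B.card_le_univ
    simpa using h1
  have hinj : Function.Injective
      (fun B : 𝒞 => (⟨B.1.card, Nat.lt_succ_of_le (hle B.1)⟩ : Fin (2 ^ n + 1))) := by
    intro B B' h
    have hc : B.1.card = B'.1.card := congrArg Fin.val h
    apply Subtype.ext
    rcases h𝒞.total B.2 B'.2 with h1 | h1
    · exact Finset.eq_of_subset_of_card_le h1 hc.ge
    · exact (Finset.eq_of_subset_of_card_le h1 hc.le).symm
  have h2 := Nat.card_le_card_of_injective _ hinj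
  simpa using h2

theorem pf_PLM (hSES : T_SES) (hHTS : T_HTS) (hLKS : T_LKS) : T_PLM := by
  intro n M k m g w s₀ d t q s hg hH1 hw hn ht hr hs 𝓛 𝓠 E hErr F hBad hReg L hL
  refine hL {L | L ∈ 𝓛 ∧ Lfc g F q (Lᶜ \ E) ∧
    ∀ p ∈ KerS g d s₀ (th1 n w d s₀ s) (Lᶜ \ E), Hit g F p} ?_
  intro L' hL' hsess
  obtain ⟨S, hS, hDT⟩ := hSES g t q s hg ht hs F _ 𝓠 E L' (fun Q hQ => hQ.2.1) hsess
  have hhit : ∀ p ∈ KerS g d s₀ (th1 n w d s₀ s) (L'ᶜ \ E), Hit g F p := by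
    refine hHTS g w s₀ d _ s hg hH1 hw hn hr (qp 𝓠 t) (𝓛.image fun L => Lᶜ \ E) F hReg
      (L'ᶜ \ E) ?_ S hS hDT
    exact Finset.mem_image.2 ⟨L', hL', rfl⟩
  have hlk := hLKS g d s₀ (th1 n w d s₀ s) m q {KerS g d s₀ (th1 n w d s₀ s) (L'ᶜ \ E)}
    (L'ᶜ \ E) F (hBad L' hL') rfl hhit
  rw [hErr L' hL', Finset.sdiff_empty] at hlk
  exact ⟨hL', hlk, hhit⟩

end Pool.Agent.H36.MW
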